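import Mathlib

/-! # A positive semidefinite form and simultaneous approximation -/

set_option autoImplicit false

open Finset MeasureTheory

namespace Pool.Agent.R846.FL

/-- the weight -/
noncomputable def w (u : ℝ) : ℝ := 4 / (4 + u ^ 2)

lemma w_nonneg (u : ℝ) : 0 ≤ w u := by unfold w; positivity

lemma w_le_one (u : ℝ) : w u ≤ 1 := by
  unfold w
  rw [div_le_one (by positivity)]
  nlinarith [sq_nonneg u]

lemma w_near {u : ℝ} (h : |u| ≤ 1) : 4 / 5 ≤ w u := by
  unfold w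
  have : u ^ 2 ≤ 1 := by
    rw [← sq_abs]
    nlinarith [abs_nonneg u]
  apply div_le_div_of_nonneg_left (by norm_num) (by positivity)
  linarith

lemma w_far {u R : ℝ} (hR : 0 < R) (h : R ≤ |u|) : w u ≤ 4 / R ^ 2 := by
  unfold w
  have : R ^ 2 ≤ u ^ 2 := by
    rw [← sq_abs u]
    exact pow_le_pow_left₀ hR.le h 2
  apply div_le_div_of_nonneg_left (by norm_num) (by positivity)
  linarith

lemma w_symm (u : ℝ) : w (-u) = w u := by unfold w; rw [neg_sq]

lemma ker_int (u : ℝ) : IntegrableOn (fun x : ℝ => 2 * Real.exp (-2 * x) * Real.cos (u * x))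
    (Set.Ioi 0) := by
  have h := (exp_neg_integrableOn_Ioi 0 (b := 2) two_pos).const_mul 2
  refine h.mono' (by fun_prop) (Filter.Eventually.of_forall fun x => ?_)
  rw [norm_mul, Real.norm_eq_abs, Real.norm_eq_abs, abs_of_nonneg (by positivity)]
  have := Real.abs_cos_le_one (u * x)
  have h2 : 0 < 2 * Real.exp (-2 * x) := by positivity
  nlinarith

lemma w_int (u : ℝ) : ∫ x in Set.Ioi (0 : ℝ), 2 * Real.exp (-2 * x) * Real.cos (u * x) = w u := by
  have ha : ((-2 : ℂ) + u * Complex.I).re < 0 := by simp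
  have h1 := integral_exp_mul_complex_Ioi ha 0
  have hint : IntegrableOn (fun x : ℝ => Complex.exp (((-2 : ℂ) + u * Complex.I) * x))
      (Set.Ioi 0) := integrableOn_exp_mul_complex_Ioi ha 0
  have h2 : (∫ x in Set.Ioi (0 : ℝ), Complex.exp (((-2 : ℂ) + u * Complex.I) * x)).re =
      ∫ x in Set.Ioi (0 : ℝ), (Complex.exp (((-2 : ℂ) + u * Complex.I) * x)).re := by
    have := integral_re (𝕜 := ℂ) (μ := volume.restrict (Set.Ioi (0 : ℝ))) hint
    exact this.symm
  have h3 : ∀ x : ℝ, (Complex.exp (((-2 : ℂ) + u * Complex.I) * x)).re =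
      Real.exp (-2 * x) * Real.cos (u * x) := by
    intro x
    rw [Complex.exp_re]
    congr 2
    · simp
    · simp
  have h4 : ∫ x in Set.Ioi (0 : ℝ), 2 * Real.exp (-2 * x) * Real.cos (u * x) =
      2 * ∫ x in Set.Ioi (0 : ℝ), (Complex.exp (((-2 : ℂ) + u * Complex.I) * x)).re := by
    rw [← integral_const_mul]
    refine integral_congr_ae (Filter.Eventually.of_forall fun x => ?_)
    simp only [h3]
    ring
  rw [h4, ← h2, h1]
  have hne : (4 : ℝ) + u ^ 2 ≠ 0 := by positivity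
  simp only [Complex.ofReal_zero, mul_zero, Complex.exp_zero]
  rw [Complex.div_re]
  simp [Complex.normSq_apply]
  unfold w
  field_simp
  ring

section form

variable {ι : Type*} (Z : Finset ι) (m g : ι → ℝ)

/-- the bilinear form -/
noncomputable def P (v v' : ι → ℝ) : ℝ :=
  ∑ s ∈ Z, ∑ s' ∈ Z, m s * m s' * (v s * v' s' * w (g s - g s'))

lemma P_nonneg (v : ι → ℝ) : 0 ≤ P Z m g v v := by
  have h1 : P Z m g v v = ∫ x in Set.Ioi (0 : ℝ), ∑ s ∈ Z, ∑ s' ∈ Z,
      m s * m s' * (v s * v s') * (2 * Real.exp (-2 * x) * Real.cos ((g s - g s') * x)) := by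
    rw [integral_finsetSum _ fun s _ => integrable_finsetSum _ fun s' _ =>
      (ker_int (g s - g s')).const_mul _]
    unfold P
    refine Finset.sum_congr rfl fun s _ => ?_
    rw [integral_finsetSum _ fun s' _ => (ker_int (g s - g s')).const_mul _]
    refine Finset.sum_congr rfl fun s' _ => ?_
    rw [integral_const_mul, w_int]
    ring
  rw [h1]
  apply integral_nonneg
  intro x
  have h2 : ∑ s ∈ Z, ∑ s' ∈ Z,
      m s * m s' * (v s * v s') * (2 * Real.exp (-2 * x) * Real.cos ((g s - g s') * x)) =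
      2 * Real.exp (-2 * x) * ((∑ s ∈ Z, m s * v s * Real.cos (g s * x)) ^ 2 +
        (∑ s ∈ Z, m s * v s * Real.sin (g s * x)) ^ 2) := by
    rw [sq, sq, Finset.sum_mul_sum, Finset.sum_mul_sum, ← Finset.sum_add_distrib, Finset.mul_sum]
    refine Finset.sum_congr rfl fun s _ => ?_
    rw [← Finset.sum_add_distrib, Finset.mul_sum]
    refine Finset.sum_congr rfl fun s' _ => ?_
    rw [sub_mul, Real.cos_sub]
    ring
  simp only [h2]
  positivity

lemma P_symm (v v' : ι → ℝ) : P Z m g v v' = P Z m g v' v := by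
  unfold P
  rw [Finset.sum_comm]
  refine Finset.sum_congr rfl fun s _ => Finset.sum_congr rfl fun s' _ => ?_
  rw [← w_symm (g s' - g s)]
  have : -(g s' - g s) = g s - g s' := by ring
  rw [this]
  ring

/-- a lower bound through a test vector -/
lemma P_test (v b : ι → ℝ) (κ : ℝ) (hκ : 0 ≤ κ) (h : κ * P Z m g b b ≤ P Z m g v b) :
    κ ^ 2 * P Z m g b b ≤ P Z m g v v := by
  have h1 := P_nonneg Z m g (fun s => v s - κ * b s)
  have h2 : P Z m g (fun s => v s - κ * b s) (fun s => v s - κ * b s) =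
      P Z m g v v - κ * P Z m g v b - κ * P Z m g b v + κ ^ 2 * P Z m g b b := by
    unfold P
    simp only [Finset.mul_sum, ← Finset.sum_sub_distrib, ← Finset.sum_add_distrib]
    refine Finset.sum_congr rfl fun s _ => Finset.sum_congr rfl fun s' _ => ?_
    ring
  rw [h2, P_symm Z m g b v] at h1
  have h3 := mul_le_mul_of_nonneg_left h hκ
  nlinarith

end form

/-- **simultaneous approximation** -/
lemma dirichlet {ι : Type*} (Z : Finset ι) (θ : ι → ℝ) (K : ℕ) (hK : 0 < K) :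
    ∃ q : ℕ, 1 ≤ q ∧ q ≤ K ^ Z.card ∧ ∀ s ∈ Z, ∃ z : ℤ, |(q : ℝ) * θ s - z| ≤ 1 / K := by
  classical
  have hK0 : (0 : ℝ) < K := by exact_mod_cast hK
  let f : Fin (K ^ Z.card + 1) → (Z → Fin K) := fun j s =>
    ⟨⌊(K : ℝ) * Int.fract ((j : ℕ) * θ s)⌋₊, by
      have h1 := Int.fract_lt_one ((j : ℕ) * θ s)
      have h2 := Int.fract_nonneg ((j : ℕ) * θ s)
      rw [Nat.floor_lt (by positivity)]
      nlinarith⟩
  have hcard : Fintype.card (Z → Fin K) < Fintype.card (Fin (K ^ Z.card + 1)) := by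
    rw [Fintype.card_fun, Fintype.card_fin, Fintype.card_fin, Fintype.card_coe]
    omega
  obtain ⟨i, j, hij, hf⟩ := Fintype.exists_ne_map_eq_of_card_lt f hcard
  wlog hlt : i < j generalizing i j with H
  · exact H j i hij.symm hf.symm (lt_of_le_of_ne (not_lt.mp hlt) hij.symm)
  have hlt' : (i : ℕ) < j := hlt
  refine ⟨j - i, by omega, by have := j.2; omega, fun s hs => ?_⟩
  have h1 := congrFun hf ⟨s, hs⟩
  have h2 : ⌊(K : ℝ) * Int.fract ((i : ℕ) * θ s)⌋₊ = ⌊(K : ℝ) * Int.fract ((j : ℕ) * θ s)⌋₊ := by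
    have := congrArg Fin.val h1
    exact this
  have hi0 := Int.fract_nonneg (((i : ℕ) : ℝ) * θ s)
  have hj0 := Int.fract_nonneg (((j : ℕ) : ℝ) * θ s)
  have a1 := Nat.floor_le (show 0 ≤ (K : ℝ) * Int.fract (((i : ℕ) : ℝ) * θ s) by positivity)
  have a2 := Nat.lt_floor_add_one ((K : ℝ) * Int.fract (((i : ℕ) : ℝ) * θ s))
  have b1 := Nat.floor_le (show 0 ≤ (K : ℝ) * Int.fract (((j : ℕ) : ℝ) * θ s) by positivity)
  have b2 := Nat.lt_floor_add_one ((K : ℝ) * Int.fract (((j : ℕ) : ℝ) * θ s))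
  rw [h2] at a1 a2
  refine ⟨⌊((j : ℕ) : ℝ) * θ s⌋ - ⌊((i : ℕ) : ℝ) * θ s⌋, ?_⟩
  have e : (((j : ℕ) - (i : ℕ) : ℕ) : ℝ) * θ s -
      ((⌊((j : ℕ) : ℝ) * θ s⌋ - ⌊((i : ℕ) : ℝ) * θ s⌋ : ℤ) : ℝ) =
      Int.fract (((j : ℕ) : ℝ) * θ s) - Int.fract (((i : ℕ) : ℝ) * θ s) := by
    rw [Nat.cast_sub hlt'.le]
    unfold Int.fract
    push_cast
    ring
  rw [e, le_div_iff₀ hK0]
  rw [← abs_of_pos hK0, ← abs_mul, abs_le]
  constructor <;> nlinarith

/-- the cosine near multiples of the period -/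
lemma cos_near {y : ℝ} {z : ℤ} {δ : ℝ} (h : |y - z| ≤ δ) :
    1 - (2 * Real.pi * δ) ^ 2 / 2 ≤ Real.cos (2 * Real.pi * y) := by
  have h1 : Real.cos (2 * Real.pi * y) = Real.cos (2 * Real.pi * (y - z)) := by
    have : 2 * Real.pi * (y - z) = 2 * Real.pi * y - z * (2 * Real.pi) := by ring
    rw [this, Real.cos_sub_int_mul_two_pi]
  rw [h1]
  have h2 := Real.one_sub_sq_div_two_le_cos (x := 2 * Real.pi * (y - z))
  have h3 : (2 * Real.pi * (y - z)) ^ 2 ≤ (2 * Real.pi * δ) ^ 2 := by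
    rw [mul_pow, mul_pow (2 * Real.pi) δ, ← sq_abs (y - z)]
    have := pow_le_pow_left₀ (abs_nonneg _) h 2
    exact mul_le_mul_of_nonneg_left this (by positivity)
  linarith

end Pool.Agent.R846.FL
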