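import Pool.Agent.H382L.GapUnif
import Pool.Agent.R846.FL.Abs

/-! # Large values of Montgomery's function at exponentially large arguments -/

set_option autoImplicit false

open Filter Topology Finset

namespace Pool.Agent.R846.FL

open SG (NZ ZS ZS_finite zmult)

/-- the zeros up to height `T` -/
noncomputable def Zf (T : ℝ) : Finset ℂ := (ZS_finite T).toFinset

lemma mem_Zf {T : ℝ} {s : ℂ} : s ∈ Zf T ↔ riemannZeta s = 0 ∧ 0 < s.re ∧ s.re < 1 ∧ 0 < s.im ∧
    s.im ≤ T := by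
  unfold Zf
  rw [Set.Finite.mem_toFinset]
  rfl

/-- the multiplicity -/
noncomputable def mu (s : ℂ) : ℝ := (zmult s : ℝ)

lemma mu_nonneg (s : ℂ) : 0 ≤ mu s := Nat.cast_nonneg _

lemma mu_sq (s : ℂ) : mu s ≤ mu s * mu s := by
  unfold mu
  have : zmult s ≤ zmult s * zmult s := Nat.le_mul_self _
  exact_mod_cast this

lemma sum_mu (T : ℝ) : ∑ s ∈ Zf T, mu s = NZ T := by
  rw [SG.NZ_eq]
  push_cast
  rfl

lemma one_le_mu {T : ℝ} {s : ℂ} (hs : s ∈ Zf T) : 1 ≤ mu s := by
  unfold mu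
  have : 1 ≤ zmult s := by
    rw [mem_Zf] at hs
    obtain ⟨h0, _, _, h3, _⟩ := hs
    exact SG.zmult_pos h3 h0
  exact_mod_cast this

lemma card_le (T : ℝ) : ((Zf T).card : ℝ) ≤ NZ T := by
  rw [← sum_mu]
  have : ((Zf T).card : ℝ) = ∑ _s ∈ Zf T, (1 : ℝ) := by simp
  rw [this]
  exact Finset.sum_le_sum fun s hs => one_le_mu hs

/-- the pair sum -/
noncomputable def QQ (T x : ℝ) : ℝ :=
  ∑ s ∈ Zf T, ∑ s' ∈ Zf T, mu s * mu s' * (Real.cos (x * (s.im - s'.im)) * w (s.im - s'.im))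

/-- the indicator of the zeros up to height `U` -/
noncomputable def ind (U : ℝ) (s : ℂ) : ℝ := if s.im ≤ U then 1 else 0

lemma QQ_ge (T x : ℝ) : P (Zf T) mu Complex.im (fun s => Real.cos (x * s.im))
    (fun s => Real.cos (x * s.im)) ≤ QQ T x := by
  have h1 := P_nonneg (Zf T) mu Complex.im (fun s => Real.sin (x * s.im))
  have h2 : QQ T x = P (Zf T) mu Complex.im (fun s => Real.cos (x * s.im))
      (fun s => Real.cos (x * s.im)) + P (Zf T) mu Complex.im (fun s => Real.sin (x * s.im))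
      (fun s => Real.sin (x * s.im)) := by
    unfold QQ P
    rw [← Finset.sum_add_distrib]
    refine Finset.sum_congr rfl fun s _ => ?_
    rw [← Finset.sum_add_distrib]
    refine Finset.sum_congr rfl fun s' _ => ?_
    rw [mul_sub, Real.cos_sub]
    ring
  linarith

lemma P_ind (T U : ℝ) (hUT : U ≤ T) : P (Zf T) mu Complex.im (ind U) (ind U) =
    ∑ s ∈ Zf U, ∑ s' ∈ Zf U, mu s * mu s' * w (s.im - s'.im) := by
  have hsub : (Zf T).filter (fun s => s.im ≤ U) = Zf U := by
    ext s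
    rw [Finset.mem_filter, mem_Zf, mem_Zf]
    constructor
    · rintro ⟨⟨a, b, c, d, _⟩, e⟩
      exact ⟨a, b, c, d, e⟩
    · rintro ⟨a, b, c, d, e⟩
      exact ⟨⟨a, b, c, d, e.trans hUT⟩, e⟩
  unfold P
  rw [← hsub, Finset.sum_filter]
  refine Finset.sum_congr rfl fun s _ => ?_
  unfold ind
  split_ifs with h
  · rw [Finset.sum_filter]
    refine Finset.sum_congr rfl fun s' _ => ?_
    split_ifs with h'
    · ring
    · ring
  · refine Finset.sum_eq_zero fun s' _ => ?_
    ring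

lemma P_ind_ge_card (T U : ℝ) (hUT : U ≤ T) :
    (NZ U : ℝ) ≤ P (Zf T) mu Complex.im (ind U) (ind U) := by
  rw [P_ind T U hUT, ← sum_mu]
  refine Finset.sum_le_sum fun s hs => ?_
  have h1 : mu s * mu s * w (s.im - s.im) ≤ ∑ s' ∈ Zf U, mu s * mu s' * w (s.im - s'.im) :=
    Finset.single_le_sum (f := fun s' => mu s * mu s' * w (s.im - s'.im))
      (fun s' _ => mul_nonneg (mul_nonneg (mu_nonneg _) (mu_nonneg _)) (w_nonneg _)) hs
  refine le_trans ?_ h1
  rw [sub_self]
  have : w 0 = 1 := by unfold w; norm_num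
  rw [this, mul_one]
  exact mu_sq s

lemma P_ind_ge (T U : ℝ) (hUT : U ≤ T) (hU : 0 ≤ U) :
    4 / 5 * (NZ U : ℝ) ^ 2 ≤ (U + 1) * P (Zf T) mu Complex.im (ind U) (ind U) := by
  classical
  rw [P_ind T U hUT]
  set K : ℕ := ⌊U⌋₊ + 1 with hK
  have hKU : (K : ℝ) ≤ U + 1 := by
    rw [hK]
    push_cast
    linarith [Nat.floor_le hU]
  set fl : ℂ → ℕ := fun s => ⌊s.im⌋₊ with hfl
  have hflK : ∀ s ∈ Zf U, fl s ∈ range K := by
    intro s hs
    rw [mem_Zf] at hs
    rw [mem_range, hK, hfl, Nat.lt_succ_iff]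
    exact Nat.floor_mono hs.2.2.2.2
  set n : ℕ → ℝ := fun k => ∑ s ∈ Zf U, (if fl s = k then mu s else 0) with hn
  have h1 : ∑ k ∈ range K, n k = NZ U := by
    rw [hn, Finset.sum_comm, ← sum_mu]
    refine Finset.sum_congr rfl fun s hs => ?_
    rw [Finset.sum_ite_eq, if_pos (hflK s hs)]
  have h2 : (∑ k ∈ range K, n k) ^ 2 ≤ K * ∑ k ∈ range K, n k ^ 2 := by
    have := sq_sum_le_card_mul_sum_sq (s := range K) (f := n)
    rwa [card_range] at this
  have h3 : 4 / 5 * ∑ k ∈ range K, n k ^ 2 ≤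
      ∑ s ∈ Zf U, ∑ s' ∈ Zf U, mu s * mu s' * w (s.im - s'.im) := by
    have e1 : ∑ k ∈ range K, n k ^ 2 = ∑ s ∈ Zf U, ∑ s' ∈ Zf U,
        ∑ k ∈ range K, (if fl s = k then mu s else 0) * (if fl s' = k then mu s' else 0) := by
      have : ∀ k, n k ^ 2 = ∑ s ∈ Zf U, ∑ s' ∈ Zf U,
          (if fl s = k then mu s else 0) * (if fl s' = k then mu s' else 0) := by
        intro k
        rw [hn, sq, Finset.sum_mul_sum]
      simp_rw [this]
      rw [Finset.sum_comm]
      refine Finset.sum_congr rfl fun s _ => ?_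
      rw [Finset.sum_comm]
    rw [e1, Finset.mul_sum]
    refine Finset.sum_le_sum fun s hs => ?_
    rw [Finset.mul_sum]
    refine Finset.sum_le_sum fun s' hs' => ?_
    have h4 : ∑ k ∈ range K, (if fl s = k then mu s else 0) * (if fl s' = k then mu s' else 0) =
        if fl s = fl s' then mu s * mu s' else 0 := by
      have : ∀ k ∈ range K, (if fl s = k then mu s else 0) * (if fl s' = k then mu s' else 0) =
          if fl s = k then (if fl s = fl s' then mu s * mu s' else 0) else 0 := by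
        intro k _
        by_cases ha : fl s = k
        · rw [if_pos ha, if_pos ha]
          by_cases hb : fl s' = k
          · rw [if_pos hb, if_pos (by rw [ha, hb])]
          · rw [if_neg hb, mul_zero, if_neg]
            intro h
            exact hb (by rw [← h, ha])
        · rw [if_neg ha, if_neg ha, zero_mul]
      rw [Finset.sum_congr rfl this, Finset.sum_ite_eq, if_pos (hflK s hs)]
    rw [h4]
    split_ifs with h
    · have h5 : |s.im - s'.im| ≤ 1 := by
        rw [mem_Zf] at hs hs'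
        have a1 := Nat.floor_le hs.2.2.2.1.le
        have a2 := Nat.lt_floor_add_one s.im
        have b1 := Nat.floor_le hs'.2.2.2.1.le
        have b2 := Nat.lt_floor_add_one s'.im
        have h6 : ⌊s.im⌋₊ = ⌊s'.im⌋₊ := h
        rw [h6] at a1 a2
        rw [abs_le]
        constructor <;> linarith
      have h6 := w_near h5
      have h7 : 0 ≤ mu s * mu s' := mul_nonneg (mu_nonneg _) (mu_nonneg _)
      nlinarith
    · rw [mul_zero]
      exact mul_nonneg (mul_nonneg (mu_nonneg _) (mu_nonneg _)) (w_nonneg _)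
  rw [h1] at h2
  have h4 : 0 ≤ ∑ s ∈ Zf U, ∑ s' ∈ Zf U, mu s * mu s' * w (s.im - s'.im) :=
    Finset.sum_nonneg fun s _ => Finset.sum_nonneg fun s' _ =>
      mul_nonneg (mul_nonneg (mu_nonneg _) (mu_nonneg _)) (w_nonneg _)
  have h5 : (K : ℝ) * (∑ s ∈ Zf U, ∑ s' ∈ Zf U, mu s * mu s' * w (s.im - s'.im)) ≤
      (U + 1) * (∑ s ∈ Zf U, ∑ s' ∈ Zf U, mu s * mu s' * w (s.im - s'.im)) :=
    mul_le_mul_of_nonneg_right hKU h4
  have h6 : (K : ℝ) * (4 / 5 * ∑ k ∈ range K, n k ^ 2) ≤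
      K * (∑ s ∈ Zf U, ∑ s' ∈ Zf U, mu s * mu s' * w (s.im - s'.im)) :=
    mul_le_mul_of_nonneg_left h3 (Nat.cast_nonneg K)
  linarith

/-- the aligned zeros dominate -/
lemma P_cross (T T' U R : ℝ) (hR : 0 < R) (hUR : U + R ≤ T') (hT' : U ≤ T) (c : ℂ → ℝ)
    (hc1 : ∀ s, -1 ≤ c s) (hc : ∀ s ∈ Zf T, s.im ≤ T' → 1 / 2 ≤ c s)
    (hN : 16 * (NZ T : ℝ) ≤ R ^ 2) :
    1 / 4 * P (Zf T) mu Complex.im (ind U) (ind U) ≤ P (Zf T) mu Complex.im c (ind U) := by
  have h1 : 1 / 2 * P (Zf T) mu Complex.im (ind U) (ind U) -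
      ∑ s ∈ Zf T, ∑ s' ∈ Zf T, mu s * mu s' * (ind U s' * (4 / R ^ 2)) ≤
      P (Zf T) mu Complex.im c (ind U) := by
    unfold P
    rw [Finset.mul_sum, ← Finset.sum_sub_distrib]
    refine Finset.sum_le_sum fun s hs => ?_
    rw [Finset.mul_sum, ← Finset.sum_sub_distrib]
    refine Finset.sum_le_sum fun s' hs' => ?_
    have hm : 0 ≤ mu s * mu s' := mul_nonneg (mu_nonneg _) (mu_nonneg _)
    have key : 1 / 2 * (ind U s * ind U s' * w (s.im - s'.im)) - ind U s' * (4 / R ^ 2) ≤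
        c s * ind U s' * w (s.im - s'.im) := by
      have hw := w_nonneg (s.im - s'.im)
      have hR2 : 0 < 4 / R ^ 2 := by positivity
      unfold ind
      by_cases hb : s'.im ≤ U
      · rw [if_pos hb]
        by_cases ha : s.im ≤ U
        · rw [if_pos ha]
          have := hc s hs (by linarith)
          nlinarith
        · rw [if_neg ha]
          by_cases hd : s.im ≤ T'
          · have := hc s hs hd
            nlinarith
          · push Not at hd
            have h5 : R ≤ |s.im - s'.im| := by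
              rw [le_abs]
              left
              linarith
            have h6 := w_far hR h5
            have := hc1 s
            nlinarith
      · rw [if_neg hb]
        simp
    have := mul_le_mul_of_nonneg_left key hm
    calc _ = mu s * mu s' * (1 / 2 * (ind U s * ind U s' * w (s.im - s'.im)) -
          ind U s' * (4 / R ^ 2)) := by ring
      _ ≤ _ := this
  have h2 : ∑ s ∈ Zf T, ∑ s' ∈ Zf T, mu s * mu s' * (ind U s' * (4 / R ^ 2)) =
      4 / R ^ 2 * (NZ T * NZ U) := by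
    have e1 : ∑ s ∈ Zf T, ∑ s' ∈ Zf T, mu s * mu s' * (ind U s' * (4 / R ^ 2)) =
        4 / R ^ 2 * ((∑ s ∈ Zf T, mu s) * ∑ s' ∈ Zf T, mu s' * ind U s') := by
      rw [Finset.sum_mul_sum, Finset.mul_sum]
      refine Finset.sum_congr rfl fun s _ => ?_
      rw [Finset.mul_sum]
      refine Finset.sum_congr rfl fun s' _ => ?_
      ring
    have e2 : ∑ s' ∈ Zf T, mu s' * ind U s' = NZ U := by
      rw [← sum_mu]
      have hsub : (Zf T).filter (fun s => s.im ≤ U) = Zf U := by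
        ext s
        rw [Finset.mem_filter, mem_Zf, mem_Zf]
        constructor
        · rintro ⟨⟨a, b, c, d, _⟩, e⟩
          exact ⟨a, b, c, d, e⟩
        · rintro ⟨a, b, c, d, e⟩
          exact ⟨⟨a, b, c, d, e.trans hT'⟩, e⟩
      rw [← hsub, Finset.sum_filter]
      refine Finset.sum_congr rfl fun s _ => ?_
      unfold ind
      split_ifs <;> simp
    rw [e1, e2, sum_mu]
  rw [h2] at h1
  have h3 := P_ind_ge_card T U hT'
  have h4 : 4 / R ^ 2 * (NZ T * NZ U) ≤ 1 / 4 * (NZ U : ℝ) := by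
    have h5 : 4 / R ^ 2 * (NZ T : ℝ) ≤ 1 / 4 := by
      rw [div_mul_eq_mul_div, div_le_iff₀ (by positivity)]
      linarith
    calc 4 / R ^ 2 * ((NZ T : ℝ) * (NZ U : ℝ)) = 4 / R ^ 2 * (NZ T : ℝ) * (NZ U : ℝ) := by ring
      _ ≤ 1 / 4 * (NZ U : ℝ) := mul_le_mul_of_nonneg_right h5 (Nat.cast_nonneg _)
  linarith

/-- large values, exponentially far -/
theorem large1 : ∃ C T0 : ℝ, 0 < C ∧ 10 ≤ T0 ∧ ∀ T : ℝ, T0 ≤ T → ∀ B : ℝ, 1 ≤ B →
    C * B ≤ Real.log T →
    ∃ q : ℕ, 1 ≤ q ∧ (q : ℝ) ≤ Real.exp (C * B * T) ∧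
      B * (T * Real.log T) ≤ QQ T (q * Real.log T) := by
  obtain ⟨c, T1, hc, hT1, hlow⟩ := LG.GapAux.NZ_low
  obtain ⟨C, T2, hC, hT2, hup⟩ := LG.GapAux.NZ_up
  obtain ⟨l0, hl0⟩ : ∃ l0 : ℝ, l0 = 640 / c ^ 2 := ⟨_, rfl⟩
  have hl00 : 0 < l0 := by rw [hl0]; positivity
  -- the growth conditions
  have g1 : Tendsto (fun T : ℝ => Real.log T / T) atTop (𝓝 0) := by
    have := Real.tendsto_pow_log_div_mul_add_atTop 1 0 1 one_ne_zero
    simpa using this
  have g3 : Tendsto (fun T : ℝ => Real.log T ^ 3 / T) atTop (𝓝 0) := by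
    have := Real.tendsto_pow_log_div_mul_add_atTop 1 0 3 (by norm_num)
    simpa using this
  have gsq : Tendsto (fun T : ℝ => Real.log T ^ 2 / T) atTop (𝓝 0) := by
    have := Real.tendsto_pow_log_div_mul_add_atTop 1 0 2 (by norm_num)
    simpa using this
  have gl : Tendsto (fun T : ℝ => Real.log T) atTop atTop := Real.tendsto_log_atTop
  have ev : ∀ᶠ T : ℝ in atTop, 10 ≤ T ∧ 1 ≤ Real.log T ∧
      Real.log T / T ≤ l0 / (2 * (T1 + T2 + 2)) ∧ Real.log T ^ 3 / T ≤ l0 ^ 2 / (16 * C + 1) ∧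
      Real.log T ^ 2 / T ≤ (l0 / 2) ^ 2 ∧ 2 * T2 ≤ T := by
    have hT1' : 0 < T1 := by linarith
    have hT2' : 0 < T2 := by linarith
    filter_upwards [eventually_ge_atTop 10, gl.eventually_ge_atTop 1,
      g1.eventually_le_const (show (0 : ℝ) < l0 / (2 * (T1 + T2 + 2)) by positivity),
      g3.eventually_le_const (show (0 : ℝ) < l0 ^ 2 / (16 * C + 1) by positivity),
      gsq.eventually_le_const (show (0 : ℝ) < (l0 / 2) ^ 2 by positivity),
      eventually_ge_atTop (2 * T2)] with T a1 a2 a4 a5 a6 a7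
    exact ⟨a1, a2, a4, a5, a6, a7⟩
  obtain ⟨T0, hT0⟩ := ev.exists_forall_of_atTop
  refine ⟨2 * (C * l0) + 4 * l0 + 1, max T0 10, by positivity, le_max_right _ _,
    fun T hT B hB hBT => ?_⟩
  obtain ⟨a1, a2, a4, a5, a6, a7⟩ := hT0 T ((le_max_left _ _).trans hT)
  have hB0 : 0 < B := by linarith
  obtain ⟨lam, hlam⟩ : ∃ lam : ℝ, lam = l0 * B := ⟨_, rfl⟩
  have hlaml0 : l0 ≤ lam := by rw [hlam]; nlinarith
  have hlam0 : 0 < lam := by linarith
  have hTpos : 0 < T := by linarith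
  have hT1' : 0 < T1 := by linarith
  have hT2' : 0 < T2 := by linarith
  obtain ⟨L, hL⟩ : ∃ L : ℝ, L = Real.log T := ⟨_, rfl⟩
  rw [← hL] at a2 a4 a5 a6 hBT ⊢
  have hLpos : 0 < L := by linarith
  have a3 : 4 * lam ≤ L := by
    rw [hlam]
    have h1 : 0 ≤ (2 * (C * l0) + 1) * B := by positivity
    linarith
  replace a4 : L / T ≤ lam / (2 * (T1 + T2 + 2)) :=
    a4.trans (div_le_div_of_nonneg_right hlaml0 (by positivity))
  replace a5 : L ^ 3 / T ≤ lam ^ 2 / (16 * C + 1) :=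
    a5.trans (div_le_div_of_nonneg_right (pow_le_pow_left₀ hl00.le hlaml0 2) (by positivity))
  replace a6 : L ^ 2 / T ≤ (lam / 2) ^ 2 :=
    a6.trans (pow_le_pow_left₀ (by positivity) (by linarith) 2)
  -- the heights
  obtain ⟨U, hU⟩ : ∃ U : ℝ, U = lam * T / L := ⟨_, rfl⟩
  have hUpos : 0 < U := by rw [hU]; positivity
  have hU4 : U ≤ T / 4 := by
    rw [hU, div_le_div_iff₀ hLpos (by norm_num)]
    nlinarith
  have hUbig : 2 * (T1 + T2 + 2) ≤ U := by
    rw [div_le_div_iff₀ hTpos (by linarith)] at a4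
    rw [hU, le_div_iff₀ hLpos]
    linarith
  -- lower bound for the number of zeros up to `U`
  have hsqrt : Real.sqrt T ≤ U / 2 := by
    have h1 : L ^ 2 ≤ (lam / 2) ^ 2 * T := by rwa [div_le_iff₀ hTpos] at a6
    have h2 : Real.sqrt T = Real.sqrt T := rfl
    apply Real.sqrt_le_iff.mpr
    refine ⟨by positivity, ?_⟩
    rw [hU]
    have e : (lam * T / L / 2) ^ 2 = (lam / 2) ^ 2 * T * T / L ^ 2 := by ring
    rw [e, le_div_iff₀ (by positivity)]
    nlinarith
  have hlogU : L / 2 ≤ Real.log (U / 2) := by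
    have h1 := Real.log_le_log (Real.sqrt_pos.mpr hTpos) hsqrt
    rw [Real.log_sqrt hTpos.le, ← hL] at h1
    exact h1
  have hNU : c * lam * T / 4 ≤ NZ U := by
    have h1 := hlow (U / 2) (by linarith)
    have e : 2 * (U / 2) = U := by ring
    rw [e] at h1
    refine le_trans ?_ h1
    have h2 : c * (U / 2 * (L / 2)) ≤ c * (U / 2 * Real.log (U / 2)) := by gcongr
    refine le_trans (le_of_eq ?_) h2
    rw [hU]
    field_simp
    ring
  -- upper bound for the number of zeros up to `2 U` and `T`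
  have hN2U : (NZ (2 * U) : ℝ) ≤ C * lam * T := by
    have h1 := hup U (by linarith)
    refine h1.trans ?_
    have h2 : Real.log U ≤ L := by
      rw [hL]
      exact Real.log_le_log hUpos (by linarith)
    have h3 : C * (U * Real.log U) ≤ C * (U * L) := by gcongr
    refine h3.trans (le_of_eq ?_)
    rw [hU]
    field_simp
  have hNT : (NZ T : ℝ) ≤ C * (T * L) := by
    have h1 := hup (T / 2) (by linarith)
    have e : 2 * (T / 2) = T := by ring
    rw [e] at h1
    refine h1.trans ?_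
    have h2 : Real.log (T / 2) ≤ L := by
      rw [hL]
      exact Real.log_le_log (by linarith) (by linarith)
    have h3 : 0 ≤ Real.log (T / 2) := Real.log_nonneg (by linarith)
    have h4 : T / 2 * Real.log (T / 2) ≤ T * L := by
      apply mul_le_mul (by linarith) h2 h3 hTpos.le
    exact mul_le_mul_of_nonneg_left h4 hC.le
  have hRN : 16 * (NZ T : ℝ) ≤ U ^ 2 := by
    have h1 : L ^ 3 * (16 * C + 1) ≤ lam ^ 2 * T := by
      rwa [div_le_div_iff₀ hTpos (by positivity)] at a5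
    have h2 : 16 * (C * (T * L)) ≤ U ^ 2 := by
      rw [hU]
      have e : (lam * T / L) ^ 2 = lam ^ 2 * T ^ 2 / L ^ 2 := by ring
      rw [e, le_div_iff₀ (by positivity)]
      have h3 : T * (L ^ 3 * (16 * C)) ≤ T * (lam ^ 2 * T) := by
        apply mul_le_mul_of_nonneg_left _ hTpos.le
        have : 0 ≤ L ^ 3 := by positivity
        linarith
      nlinarith
    linarith
  -- alignment
  obtain ⟨q, hq1, hq2, hq⟩ := dirichlet (Zf (2 * U)) (fun s => L * s.im / (2 * Real.pi)) 7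
    (by norm_num)
  refine ⟨q, hq1, ?_, ?_⟩
  · have h1 : (q : ℝ) ≤ (7 : ℝ) ^ (Zf (2 * U)).card := by exact_mod_cast hq2
    have h2 : (7 : ℝ) ≤ Real.exp 2 := by
      have h3 : Real.exp 2 = Real.exp 1 * Real.exp 1 := by rw [← Real.exp_add]; norm_num
      have h4 := Real.exp_one_gt_d9
      rw [h3]
      nlinarith
    have h3 : (7 : ℝ) ^ (Zf (2 * U)).card ≤ Real.exp 2 ^ (Zf (2 * U)).card :=
      pow_le_pow_left₀ (by norm_num) h2 _
    have h4 : Real.exp 2 ^ (Zf (2 * U)).card = Real.exp ((Zf (2 * U)).card * 2) := by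
      rw [Real.exp_nat_mul]
    have h5 := (card_le (2 * U)).trans hN2U
    refine h1.trans (h3.trans (h4.le.trans (Real.exp_le_exp.mpr ?_)))
    have h6 : 0 ≤ (4 * l0 + 1) * B * T := by positivity
    rw [hlam] at h5
    linarith
  · have hcos : ∀ s ∈ Zf (2 * U), 1 / 2 ≤ Real.cos ((q * L) * s.im) := by
      intro s hs
      obtain ⟨z, hz⟩ := hq s hs
      have h1 := cos_near hz
      have e : 2 * Real.pi * ((q : ℝ) * (L * s.im / (2 * Real.pi))) = (q * L) * s.im := by
        have := Real.pi_pos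
        field_simp
      rw [e] at h1
      have h2 : (2 * Real.pi * (1 / ((7 : ℕ) : ℝ))) ^ 2 ≤ 1 := by
        have h3 := Real.pi_lt_d2
        have h4 := Real.pi_pos
        push_cast
        nlinarith
      linarith
    have hcross := P_cross T (2 * U) U U hUpos (by linarith) (by linarith)
      (fun s => Real.cos ((q * L) * s.im)) (fun s => Real.neg_one_le_cos _) (by
        intro s hs hs2
        apply hcos s
        rw [mem_Zf] at hs ⊢
        exact ⟨hs.1, hs.2.1, hs.2.2.1, hs.2.2.2.1, hs2⟩) hRN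
    have htest := P_test (Zf T) mu Complex.im (fun s => Real.cos ((q * L) * s.im)) (ind U) (1 / 4)
      (by norm_num) hcross
    have hge := QQ_ge T (q * L)
    have hPi := P_ind_ge T U (by linarith) hUpos.le
    refine le_trans ?_ (htest.trans hge)
    -- numerical computation
    have h1 : (c * lam * T / 4) ^ 2 ≤ (NZ U : ℝ) ^ 2 := pow_le_pow_left₀ (by positivity) hNU 2
    have h2 : U + 1 ≤ 2 * U := by linarith
    have hP0 : 0 ≤ P (Zf T) mu Complex.im (ind U) (ind U) := P_nonneg _ _ _ _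
    have h3 : 4 / 5 * (c * lam * T / 4) ^ 2 ≤ 2 * U * P (Zf T) mu Complex.im (ind U) (ind U) := by
      have : (U + 1) * P (Zf T) mu Complex.im (ind U) (ind U) ≤
          2 * U * P (Zf T) mu Complex.im (ind U) (ind U) := mul_le_mul_of_nonneg_right h2 hP0
      linarith
    have h4 : 4 / 5 * (c * lam * T / 4) ^ 2 = 2 * U * (c ^ 2 * lam / 40 * (T * L)) := by
      rw [hU]
      field_simp
      ring
    rw [h4] at h3
    have h5 := le_of_mul_le_mul_left h3 (by positivity)
    have h6 : c ^ 2 * lam = 640 * B := by rw [hlam, hl0]; field_simp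
    rw [h6] at h5
    linarith

/-- nearly maximal values -/
theorem large2 (ε : ℝ) (hε : 0 < ε) : ∃ C T0 : ℝ, 0 < C ∧ 10 ≤ T0 ∧ ∀ T : ℝ, T0 ≤ T →
    ∃ q : ℕ, 1 ≤ q ∧ (q : ℝ) ≤ Real.exp (C * (T * Real.log T)) ∧
      (1 - ε) * QQ T 0 ≤ QQ T (q * Real.log T) := by
  obtain ⟨C, T2, hC, hT2, hup⟩ := LG.GapAux.NZ_up
  obtain ⟨K, hK⟩ := exists_nat_gt (max 2 (200 / ε))
  have hK2 : (2 : ℝ) < K := (le_max_left _ _).trans_lt hK
  have hKε : 200 / ε < K := (le_max_right _ _).trans_lt hK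
  have hK0 : (0 : ℝ) < K := by linarith
  have hK0' : 0 < K := by exact_mod_cast hK0
  have hlK : 0 < Real.log K := Real.log_pos (by linarith)
  refine ⟨C * Real.log K, max (2 * T2) 10, by positivity, le_max_right _ _, fun T hT => ?_⟩
  have ha : 2 * T2 ≤ T := (le_max_left _ _).trans hT
  have hb : 10 ≤ T := (le_max_right _ _).trans hT
  have hTpos : 0 < T := by linarith
  obtain ⟨L, hL⟩ : ∃ L : ℝ, L = Real.log T := ⟨_, rfl⟩
  rw [← hL]
  have hNT : (NZ T : ℝ) ≤ C * (T * L) := by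
    have h1 := hup (T / 2) (by linarith)
    have e : 2 * (T / 2) = T := by ring
    rw [e] at h1
    refine h1.trans ?_
    have h2 : Real.log (T / 2) ≤ L := by
      rw [hL]
      exact Real.log_le_log (by linarith) (by linarith)
    have h3 : 0 ≤ Real.log (T / 2) := Real.log_nonneg (by linarith)
    have h4 : T / 2 * Real.log (T / 2) ≤ T * L := by
      apply mul_le_mul (by linarith) h2 h3 hTpos.le
    exact mul_le_mul_of_nonneg_left h4 hC.le
  obtain ⟨q, hq1, hq2, hq⟩ := dirichlet (Zf T) (fun s => L * s.im / (2 * Real.pi)) K hK0'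
  refine ⟨q, hq1, ?_, ?_⟩
  · have h1 : (q : ℝ) ≤ (K : ℝ) ^ (Zf T).card := by exact_mod_cast hq2
    have h4 : (K : ℝ) ^ (Zf T).card = Real.exp ((Zf T).card * Real.log K) := by
      rw [Real.exp_nat_mul, Real.exp_log hK0]
    have h5 := (card_le T).trans hNT
    refine h1.trans (h4.le.trans (Real.exp_le_exp.mpr ?_))
    have := mul_le_mul_of_nonneg_right h5 hlK.le
    linarith
  · unfold QQ
    rw [Finset.mul_sum]
    refine Finset.sum_le_sum fun s hs => ?_
    rw [Finset.mul_sum]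
    refine Finset.sum_le_sum fun s' hs' => ?_
    obtain ⟨z, hz⟩ := hq s hs
    obtain ⟨z', hz'⟩ := hq s' hs'
    have h1 : |(q * (L * s.im / (2 * Real.pi)) - q * (L * s'.im / (2 * Real.pi))) -
        ((z - z' : ℤ) : ℝ)| ≤ 2 / K := by
      have e : 2 / (K : ℝ) = 1 / K + 1 / K := by ring
      rw [e]
      push_cast
      rw [abs_le] at *
      constructor <;> linarith [hz.1, hz.2, hz'.1, hz'.2]
    have h2 := cos_near h1
    have e : 2 * Real.pi * (q * (L * s.im / (2 * Real.pi)) - q * (L * s'.im / (2 * Real.pi))) =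
        (q * L) * (s.im - s'.im) := by
      have := Real.pi_pos
      field_simp
    rw [e] at h2
    have h3 : (2 * Real.pi * (2 / (K : ℝ))) ^ 2 / 2 ≤ ε := by
      have h4 := Real.pi_lt_four
      have h5 := Real.pi_pos
      rw [div_lt_iff₀ hε] at hKε
      have h6 : (2 * Real.pi * (2 / (K : ℝ))) ^ 2 / 2 = 8 * Real.pi ^ 2 / K ^ 2 := by ring
      rw [h6, div_le_iff₀ (by positivity)]
      have h7 : 8 * Real.pi ^ 2 ≤ 128 := by nlinarith
      nlinarith
    have h4 : 1 - ε ≤ Real.cos ((q * L) * (s.im - s'.im)) := by linarith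
    have h5 : 0 ≤ mu s * mu s' * w (s.im - s'.im) :=
      mul_nonneg (mul_nonneg (mu_nonneg _) (mu_nonneg _)) (w_nonneg _)
    rw [zero_mul, Real.cos_zero]
    nlinarith

end Pool.Agent.R846.FL
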